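import Pool.Agent.helper91.SI.Spec2

/-!
# CY7: the slides run once around a cycle of length 7
-/

set_option autoImplicit false

namespace Pool.Agent.helper91.SI

open Pool.Agent.helper20.IG (IsIndepDom IsISet iGraph)

theorem CY7_ne {V : Type} {G : SimpleGraph V} {a b : V} (h : G.Adj a b) : a ≠ b := G.ne_of_adj h

theorem CY7_three {V : Type} {G : SimpleGraph V} (hN3 : NoTri G) {a b c : V}
    (h1 : G.Adj a b) (h2 : G.Adj b c) (h3 : G.Adj c a) : False :=
  hN3 a b c h1 h2 h3.symm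

theorem CY7_five {V : Type} {G : SimpleGraph V} (hN3 : NoTri G) (hN5 : NoC5 G) {a b c d e : V}
    (h1 : G.Adj a b) (h2 : G.Adj b c) (h3 : G.Adj c d) (h4 : G.Adj d e) (h5 : G.Adj e a) :
    False := by
  have n1 : a ≠ c := by
    intro h
    subst h
    exact CY7_three hN3 h3 h4 h5
  have n2 : b ≠ d := by
    intro h
    subst h
    exact CY7_three hN3 h4 h5 h1
  have n3 : c ≠ e := by
    intro h
    subst h
    exact CY7_three hN3 h5 h1 h2
  have n4 : a ≠ d := by
    intro h
    subst h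
    exact CY7_three hN3 h1 h2 h3
  have n5 : b ≠ e := by
    intro h
    subst h
    exact CY7_three hN3 h2 h3 h4
  refine hN5 a b c d e ?_ h1 h2 h3 h4 h5
  simp only [List.nodup_cons, List.mem_cons, List.not_mem_nil, or_false, not_or, not_false_eq_true,
    List.nodup_nil, and_true]
  exact ⟨⟨CY7_ne h1, n1, n4, (CY7_ne h5).symm⟩, ⟨CY7_ne h2, n2, n5⟩, ⟨CY7_ne h3, n3⟩, CY7_ne h4⟩

theorem CY7_val : ∀ k : ZMod 7, (k + 1).val = k.val + 1 ∨ (k.val = 6 ∧ (k + 1).val = 0) := by
  decide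

theorem CY7_dist : ∀ i j : ZMod 7, i ≠ j →
    j = i + 1 ∨ j = i + 3 ∨ j = i + 5 ∨ i = j + 1 ∨ i = j + 3 ∨ i = j + 5 := by
  decide

theorem CY7 (hPRM : PRM_stmt) : CY7_stmt := by
  intro V G s τ hN3 hN5 hadj
  have h0 : ∀ t, τ t ≠ t := by
    intro t h
    have h1 := hadj t
    rw [h] at h1
    exact G.loopless.irrefl _ h1
  rcases hPRM τ h0 with ⟨t, ht⟩ | ⟨t, ht⟩ | ⟨h7, honto⟩
  · exfalso
    have h3 := hadj (τ (τ t))
    rw [ht] at h3
    exact CY7_three hN3 (hadj t) (hadj (τ t)) h3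
  · exfalso
    have h5 := hadj (τ (τ (τ (τ t))))
    rw [ht] at h5
    exact CY7_five hN3 hN5 (hadj t) (hadj (τ t)) (hadj (τ (τ t))) (hadj (τ (τ (τ t)))) h5
  · obtain ⟨g, hg⟩ : ∃ g : ZMod 7 → ZMod 7, ∀ k, g k = (τ ^ k.val) 0 := ⟨_, fun _ => rfl⟩
    have hstep : ∀ k, g (k + 1) = τ (g k) := by
      intro k
      rw [hg, hg]
      rcases CY7_val k with h | ⟨h1, h2⟩
      · rw [h, pow_succ', Equiv.Perm.mul_apply]
      · rw [h2, h1, pow_zero, Equiv.Perm.one_apply, ← Equiv.Perm.mul_apply, ← pow_succ']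
        exact h7.symm
    have hsurj : Function.Surjective g := by
      intro i
      obtain ⟨k, hk⟩ := honto i
      refine ⟨((k : ℕ) : ZMod 7), ?_⟩
      rw [hg, ZMod.val_natCast, Nat.mod_eq_of_lt k.2]
      exact hk
    have hbij : Function.Bijective g := Finite.surjective_iff_bijective.1 hsurj
    obtain ⟨κ, hκ⟩ : ∃ κ : Equiv.Perm (ZMod 7), ∀ t, g (κ t) = t :=
      ⟨(Equiv.ofBijective g hbij).symm, fun t => (Equiv.ofBijective g hbij).apply_symm_apply t⟩
    have hz : ∀ k, G.Adj (s (g k)) (s (g (k + 1))) := by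
      intro k
      rw [hstep]
      exact hadj (g k)
    have z1 : ∀ k, s (g k) ≠ s (g (k + 1)) := fun k => CY7_ne (hz k)
    have z3 : ∀ k, s (g k) ≠ s (g (k + 3)) := by
      intro k h
      have e : k + 3 = k + 1 + 1 + 1 := by ring
      have h3 := hz (k + 1 + 1)
      rw [← e, ← h] at h3
      exact CY7_three hN3 (hz k) (hz (k + 1)) h3
    have z5 : ∀ k, s (g k) ≠ s (g (k + 5)) := by
      intro k h
      have e : k + 5 = k + 1 + 1 + 1 + 1 + 1 := by ring
      have h3 := hz (k + 1 + 1 + 1 + 1)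
      rw [← e, ← h] at h3
      exact CY7_five hN3 hN5 (hz k) (hz (k + 1)) (hz (k + 1 + 1)) (hz (k + 1 + 1 + 1)) h3
    refine ⟨fun k => s (g k), κ, ⟨?_, hz⟩, ?_⟩
    · intro i j hij
      by_contra hne
      have hij' : s (g i) = s (g j) := hij
      rcases CY7_dist i j hne with h | h | h | h | h | h
      · rw [h] at hij'
        exact z1 i hij'
      · rw [h] at hij'
        exact z3 i hij'
      · rw [h] at hij'
        exact z5 i hij'
      · rw [h] at hij'
        exact z1 j hij'.symm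
      · rw [h] at hij'
        exact z3 j hij'.symm
      · rw [h] at hij'
        exact z5 j hij'.symm
    · intro t
      constructor
      · show s t = s (g (κ t))
        rw [hκ]
      · show s (τ t) = s (g (κ t + 1))
        rw [hstep, hκ]

end Pool.Agent.helper91.SI
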