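import Pool.Agent.helper91.SI.Spec3

/-!
# NOM: the second kind of closed walk does not occur
-/

set_option autoImplicit false

namespace Pool.Agent.helper91.SI

open Pool.Agent.helper20.IG (IsIndepDom IsISet iGraph)

theorem NOM_d1 : ∀ j0 j1 i0 : ZMod 5, (i0 = j0 ∨ i0 = j0 + 2) →
    ¬ ∀ i, (i = j1 ∨ i = j1 + 2) ↔ (i ≠ i0 ∧ (i = j0 ∨ i = j0 + 2)) := by
  decide

theorem NOM_d2 : ∀ j0 j1 i0 : ZMod 5, ¬ (i0 = j0 ∨ i0 = j0 + 2) →
    ¬ ∀ i, (i = j1 ∨ i = j1 + 2) ↔ (i = i0 ∨ (i = j0 ∨ i = j0 + 2)) := by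
  decide

/-- the main case -/
theorem NOM_main (hNMC : NMC_stmt) (hNM2 : NM2_stmt) (hNM3 : NM3_stmt) (V : Type) [DecidableEq V]
    (G : SimpleGraph V) (S : ZMod 7 → Finset V)
    (s v : ZMod 7 → V) (q : ZMod 5 → V) (r r' : V) (a b : ZMod 7) (ρ : ZMod 5 → ZMod 7)
    (h3 : NoTri G) (h4 : NoC4 (iGraph G)) (hM : MT G S s v q r r' a b ρ) (hb : b = a + 3) :
    False := by
  obtain ⟨hW, hq, _, _, _, _, _, hsa, hva, _, _⟩ := id hM
  obtain ⟨_, _, hst⟩ := hW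
  obtain ⟨h1, h2, _, hS⟩ := hst a
  rw [hsa] at h1 hS
  rw [hva] at h2 hS
  obtain ⟨j0, hj0⟩ := hNMC V G S s v q r r' a b ρ h3 h4 hM a
  obtain ⟨j1, hj1⟩ := hNMC V G S s v q r r' a b ρ h3 h4 hM (a + 1)
  by_cases hr : ∃ i, q i = r
  · by_cases hr' : ∃ i, q i = r'
    · exact hNM2 V G S s v q r r' a b ρ h3 h4 hM hr hr'
    · obtain ⟨i0, hi0⟩ := hr
      refine NOM_d1 j0 j1 i0 ?_ ?_
      · rw [← hj0 i0, hi0]
        exact h1
      · intro i
        rw [← hj1 i, ← hj0 i, hS, Finset.mem_insert, Finset.mem_erase]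
        constructor
        · rintro (h | ⟨h, h'⟩)
          · exact absurd ⟨i, h⟩ hr'
          · refine ⟨?_, h'⟩
            rintro rfl
            exact h hi0
        · rintro ⟨h, h'⟩
          refine Or.inr ⟨?_, h'⟩
          intro he
          exact h (hq (he.trans hi0.symm))
  · by_cases hr' : ∃ i, q i = r'
    · obtain ⟨i0, hi0⟩ := hr'
      refine NOM_d2 j0 j1 i0 ?_ ?_
      · rw [← hj0 i0, hi0]
        exact h2
      · intro i
        rw [← hj1 i, ← hj0 i, hS, Finset.mem_insert, Finset.mem_erase]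
        constructor
        · rintro (h | ⟨_, h'⟩)
          · exact Or.inl (hq (h.trans hi0.symm))
          · exact Or.inr h'
        · rintro (h | h')
          · left
            rw [h, hi0]
          · exact Or.inr ⟨fun he => hr ⟨i, he⟩, h'⟩
    · exact hNM3 V G S s v q r r' a b ρ h3 h4 hM hb (fun i hi => hr ⟨i, hi⟩)
        (fun i hi => hr' ⟨i, hi⟩)

theorem NOM (hNM1 : NM1_stmt) (hNMC : NMC_stmt) (hNM2 : NM2_stmt) (hNM3 : NM3_stmt) : NOM_stmt := by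
  intro V _ G S s v q r r' a b ρ h3 h4 hM
  rcases hNM1 V G S s v q r r' a b ρ h3 h4 hM with h | h
  · exact NOM_main hNMC hNM2 hNM3 V G S s v q r r' a b ρ h3 h4 hM h
  · obtain ⟨hW, hq, hadj, hρ, hab, hne, hval, hsa, hva, hsb, hvb⟩ := hM
    exact NOM_main hNMC hNM2 hNM3 V G S s v q r' r b a ρ h3 h4
      ⟨hW, hq, hadj, hρ, hab.symm, fun i => ⟨(hne i).2, (hne i).1⟩, hval, hsb, hvb, hsa, hva⟩ h

end Pool.Agent.helper91.SI
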