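import Pool.Agent.helper91.SI.Spec

/-!
# THR: three slides which are pairwise in conflict are impossible
-/

set_option autoImplicit false

namespace Pool.Agent.helper91.SI

open Pool.Agent.helper20.IG (IsIndepDom IsISet iGraph)

theorem THR_six {V : Type} (G : SimpleGraph V) (h : NoC6 G) {a b c d e f : V}
    (ab : a ≠ b) (ac : a ≠ c) (ad : a ≠ d) (ae : a ≠ e) (af : a ≠ f)
    (bc : b ≠ c) (bd : b ≠ d) (be : b ≠ e) (bf : b ≠ f)
    (cd : c ≠ d) (ce : c ≠ e) (cf : c ≠ f) (de : d ≠ e) (df : d ≠ f) (ef : e ≠ f)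
    (h1 : G.Adj a b) (h2 : G.Adj b c) (h3 : G.Adj c d) (h4 : G.Adj d e) (h5 : G.Adj e f)
    (h6 : G.Adj f a) : False := by
  refine h a b c d e f ?_ h1 h2 h3 h4 h5 h6
  simp only [List.nodup_cons, List.mem_cons, List.not_mem_nil, or_false, not_or, not_false_eq_true,
    List.nodup_nil, and_true]
  exact ⟨⟨ab, ac, ad, ae, af⟩, ⟨bc, bd, be, bf⟩, ⟨cd, ce, cf⟩, ⟨de, df⟩, ef⟩

theorem THR_seven {V : Type} (G : SimpleGraph V) (h : NoC7 G) {a b c d e f g : V}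
    (ab : a ≠ b) (ac : a ≠ c) (ad : a ≠ d) (ae : a ≠ e) (af : a ≠ f) (ag : a ≠ g)
    (bc : b ≠ c) (bd : b ≠ d) (be : b ≠ e) (bf : b ≠ f) (bg : b ≠ g)
    (cd : c ≠ d) (ce : c ≠ e) (cf : c ≠ f) (cg : c ≠ g) (de : d ≠ e) (df : d ≠ f) (dg : d ≠ g)
    (ef : e ≠ f) (eg : e ≠ g) (fg : f ≠ g)
    (h1 : G.Adj a b) (h2 : G.Adj b c) (h3 : G.Adj c d) (h4 : G.Adj d e) (h5 : G.Adj e f)
    (h6 : G.Adj f g) (h7 : G.Adj g a) : False := by
  refine h a b c d e f g ?_ h1 h2 h3 h4 h5 h6 h7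
  simp only [List.nodup_cons, List.mem_cons, List.not_mem_nil, or_false, not_or, not_false_eq_true,
    List.nodup_nil, and_true]
  exact ⟨⟨ab, ac, ad, ae, af, ag⟩, ⟨bc, bd, be, bf, bg⟩, ⟨cd, ce, cf, cg⟩, ⟨de, df, dg⟩,
    ⟨ef, eg⟩, fg⟩

/-- the data of a token with a slide: it is used for all three tokens -/
structure THR_T {V : Type} (G : SimpleGraph V) (S : Finset V) (s v : V) : Prop where
  mem : s ∈ S
  nmem : v ∉ S
  adj : G.Adj s v
  only : ∀ t ∈ S, G.Adj t v → t = s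

/-- the data of a common neighbour -/
structure THR_X {V : Type} (G : SimpleGraph V) (S : Finset V) (s t x : V) : Prop where
  a1 : G.Adj s x
  a2 : G.Adj t x
  only : ∀ u ∈ S, G.Adj u x → u = s ∨ u = t

theorem THR_vs {V : Type} {G : SimpleGraph V} {S : Finset V} {s v t w : V}
    (h1 : THR_T G S s v) (h2 : THR_T G S t w) : v ≠ t := by
  intro h
  exact h1.nmem (h ▸ h2.mem)

theorem THR_vv {V : Type} {G : SimpleGraph V} {S : Finset V} {s v t w : V}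
    (h1 : THR_T G S s v) (h2 : THR_T G S t w) (hst : s ≠ t) : v ≠ w := by
  intro h
  exact hst (h2.only s h1.mem (h ▸ h1.adj))

theorem THR_xs {V : Type} {G : SimpleGraph V} {S : Finset V} {s t x u v : V}
    (hI : ∀ a ∈ S, ∀ b ∈ S, ¬ G.Adj a b) (hs : s ∈ S) (hx : THR_X G S s t x)
    (h2 : THR_T G S u v) : x ≠ u := by
  intro h
  exact hI s hs u h2.mem (h ▸ hx.a1)

theorem THR_xv {V : Type} {G : SimpleGraph V} {S : Finset V} {s t x u v : V}
    (hs : s ∈ S) (ht : t ∈ S) (hst : s ≠ t) (hx : THR_X G S s t x)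
    (h2 : THR_T G S u v) : x ≠ v := by
  intro h
  have h3 := h2.only s hs (h ▸ hx.a1)
  have h4 := h2.only t ht (h ▸ hx.a2)
  exact hst (h3.trans h4.symm)

/-- different pairs have different common neighbours: `u` is the member of the second pair that is
not in the first one -/
theorem THR_xx {V : Type} {G : SimpleGraph V} {S : Finset V} {s t x u y : V}
    (hu : u ∈ S) (h1 : u ≠ s) (h2 : u ≠ t) (hx : THR_X G S s t x) (hy : G.Adj u y) : x ≠ y := by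
  intro h
  rcases hx.only u hu (h ▸ hy) with h3 | h3
  · exact h1 h3
  · exact h2 h3

theorem THR_main {V : Type} (G : SimpleGraph V) (S : Finset V)
    (s1 v1 s2 v2 s3 v3 : V) (hN3 : NoTri G) (hN6 : NoC6 G) (hN7 : NoC7 G)
    (hI : ∀ a ∈ S, ∀ b ∈ S, ¬ G.Adj a b)
    (T1 : THR_T G S s1 v1) (T2 : THR_T G S s2 v2) (T3 : THR_T G S s3 v3)
    (n12 : s1 ≠ s2) (n13 : s1 ≠ s3) (n23 : s2 ≠ s3)
    (c12 : G.Adj v1 v2 ∨ ∃ x, THR_X G S s1 s2 x)
    (c13 : G.Adj v1 v3 ∨ ∃ x, THR_X G S s1 s3 x)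
    (c23 : G.Adj v2 v3 ∨ ∃ x, THR_X G S s2 s3 x) : False := by
  have m1 := T1.mem
  have m2 := T2.mem
  have m3 := T3.mem
  -- slides against tokens
  have v1s1 := THR_vs T1 T1
  have v1s2 := THR_vs T1 T2
  have v1s3 := THR_vs T1 T3
  have v2s1 := THR_vs T2 T1
  have v2s2 := THR_vs T2 T2
  have v2s3 := THR_vs T2 T3
  have v3s1 := THR_vs T3 T1
  have v3s2 := THR_vs T3 T2
  have v3s3 := THR_vs T3 T3
  have v12 := THR_vv T1 T2 n12
  have v13 := THR_vv T1 T3 n13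
  have v23 := THR_vv T2 T3 n23
  rcases c12 with a12 | ⟨x, X⟩
  · rcases c13 with a13 | ⟨y, Y⟩
    · rcases c23 with a23 | ⟨z, Z⟩
      · exact hN3 v1 v2 v3 a12 a23 a13
      · -- v2 v1 v3 s3 z s2
        exact THR_six G hN6 v12.symm v23 v2s3 (THR_xv m2 m3 n23 Z T2).symm v2s2
          v13 v1s3 (THR_xv m2 m3 n23 Z T1).symm v1s2
          v3s3 (THR_xv m2 m3 n23 Z T3).symm v3s2
          (THR_xs hI m2 Z T3).symm n23.symm (THR_xs hI m2 Z T2)
          a12.symm a13 T3.adj.symm Z.a2 Z.a1.symm T2.adj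
    · rcases c23 with a23 | ⟨z, Z⟩
      · -- v1 v2 v3 s3 y s1
        exact THR_six G hN6 v12 v13 v1s3 (THR_xv m1 m3 n13 Y T1).symm v1s1
          v23 v2s3 (THR_xv m1 m3 n13 Y T2).symm v2s1
          v3s3 (THR_xv m1 m3 n13 Y T3).symm v3s1
          (THR_xs hI m1 Y T3).symm n13.symm (THR_xs hI m1 Y T1)
          a12 a23 T3.adj.symm Y.a2 Y.a1.symm T1.adj
      · -- s1 v1 v2 s2 z s3 y
        have zy : z ≠ y := THR_xx m1 n12 n13 Z Y.a1
        exact THR_seven G hN7 v1s1.symm v2s1.symm n12 (THR_xs hI m2 Z T1).symm n13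
          (THR_xs hI m1 Y T1).symm
          v12 v1s2 (THR_xv m2 m3 n23 Z T1).symm v1s3 (THR_xv m1 m3 n13 Y T1).symm
          v2s2 (THR_xv m2 m3 n23 Z T2).symm v2s3 (THR_xv m1 m3 n13 Y T2).symm
          (THR_xs hI m2 Z T2).symm n23 (THR_xs hI m1 Y T2).symm
          (THR_xs hI m2 Z T3) zy (THR_xs hI m1 Y T3).symm
          T1.adj a12 T2.adj.symm Z.a1 Z.a2.symm Y.a2 Y.a1.symm
  · rcases c13 with a13 | ⟨y, Y⟩
    · rcases c23 with a23 | ⟨z, Z⟩
      · -- v1 v3 v2 s2 x s1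
        exact THR_six G hN6 v13 v12 v1s2 (THR_xv m1 m2 n12 X T1).symm v1s1
          v23.symm v3s2 (THR_xv m1 m2 n12 X T3).symm v3s1
          v2s2 (THR_xv m1 m2 n12 X T2).symm v2s1
          (THR_xs hI m1 X T2).symm n12.symm (THR_xs hI m1 X T1)
          a13 a23.symm T2.adj.symm X.a2 X.a1.symm T1.adj
      · -- s1 v1 v3 s3 z s2 x
        have zx : z ≠ x := THR_xx m1 n12 n13 Z X.a1
        exact THR_seven G hN7 v1s1.symm v3s1.symm n13 (THR_xs hI m2 Z T1).symm n12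
          (THR_xs hI m1 X T1).symm
          v13 v1s3 (THR_xv m2 m3 n23 Z T1).symm v1s2 (THR_xv m1 m2 n12 X T1).symm
          v3s3 (THR_xv m2 m3 n23 Z T3).symm v3s2 (THR_xv m1 m2 n12 X T3).symm
          (THR_xs hI m2 Z T3).symm n23.symm (THR_xs hI m1 X T3).symm
          (THR_xs hI m2 Z T2) zx (THR_xs hI m1 X T2).symm
          T1.adj a13 T3.adj.symm Z.a2 Z.a1.symm X.a2 X.a1.symm
    · rcases c23 with a23 | ⟨z, Z⟩
      · -- s2 v2 v3 s3 y s1 x
        have yx : y ≠ x := THR_xx m2 n12.symm n23 Y X.a2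
        exact THR_seven G hN7 v2s2.symm v3s2.symm n23 (THR_xs hI m1 Y T2).symm n12.symm
          (THR_xs hI m1 X T2).symm
          v23 v2s3 (THR_xv m1 m3 n13 Y T2).symm v2s1 (THR_xv m1 m2 n12 X T2).symm
          v3s3 (THR_xv m1 m3 n13 Y T3).symm v3s1 (THR_xv m1 m2 n12 X T3).symm
          (THR_xs hI m1 Y T3).symm n13.symm (THR_xs hI m1 X T3).symm
          (THR_xs hI m1 Y T1) yx (THR_xs hI m1 X T1).symm
          T2.adj a23 T3.adj.symm Y.a2 Y.a1.symm X.a1 X.a2.symm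
      · -- s1 x s2 z s3 y
        have xz : x ≠ z := THR_xx m3 n13.symm n23.symm X Z.a2
        have xy : x ≠ y := THR_xx m3 n13.symm n23.symm X Y.a2
        have zy : z ≠ y := THR_xx m1 n12 n13 Z Y.a1
        exact THR_six G hN6 (THR_xs hI m1 X T1).symm n12 (THR_xs hI m2 Z T1).symm n13
          (THR_xs hI m1 Y T1).symm
          (THR_xs hI m1 X T2) xz (THR_xs hI m1 X T3) xy
          (THR_xs hI m2 Z T2).symm n23 (THR_xs hI m1 Y T2).symm
          (THR_xs hI m2 Z T3) zy (THR_xs hI m1 Y T3).symm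
          X.a1 X.a2.symm Z.a1 Z.a2.symm Y.a2 Y.a1.symm

theorem THR (hSLD : SLD_stmt) : THR_stmt := by
  intro V _ G S s1 v1 s2 v2 s3 v3 hN3 hN6 hN7 h1 h2 h3 n12 n13 n23 c12 c13 c23
  have mk : ∀ s v, Slide G S s v → THR_T G S s v := by
    intro s v h
    exact ⟨h.2.1, h.2.2.1, h.2.2.2.1, (hSLD V G S s v hN3 h).1⟩
  have mc : ∀ s v t w, Conf G S s v t w → (G.Adj v w ∨ ∃ x, THR_X G S s t x) := by
    intro s v t w h
    rcases h with h | ⟨x, ha, hb, hc⟩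
    · exact Or.inl h
    · exact Or.inr ⟨x, ha, hb, hc⟩
  exact THR_main G S s1 v1 s2 v2 s3 v3 hN3 hN6 hN7 h1.1.1.1 (mk _ _ h1) (mk _ _ h2) (mk _ _ h3)
    n12 n13 n23 (mc _ _ _ _ c12) (mc _ _ _ _ c13) (mc _ _ _ _ c23)

end Pool.Agent.helper91.SI
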